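import Pool.Agent.H.MP_975ca8_an.Gen

open Set

namespace Pool.Agent.Results.MP_aa7c57_an.Periodic

variable {k : ℕ}

/-- x is a positive solution of x (n + 1) = 1 / (C n * x (n - 1) + x (n - 2)), n ≥ 0. -/
def IsSol (C : ZMod k → ℝ) (x : ℤ → ℝ) : Prop :=
  0 < x (-2) ∧ 0 < x (-1) ∧ 0 < x 0 ∧
    ∀ n : ℤ, 0 ≤ n → x (n + 1) = 1 / (C n * x (n - 1) + x (n - 2))

/-- The cyclic polynomial system z (j + 1) (C j z (j - 1) + z (j - 2)) = 1, j in ℤ / k, has a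
positive solution. -/
def Cyc (C : ZMod k → ℝ) : Prop :=
  ∃ z : ZMod k → ℝ, (∀ j, 0 < z j) ∧ ∀ j, z (j + 1) * (C j * z (j - 1) + z (j - 2)) = 1

open Pool.Agent.H.MP_975ca8_an in
theorem result (k : ℕ) (hk : 2 ≤ k) :
    (∀ C : ZMod k → ℝ, (∀ j, 0 ≤ C j) →
      ((∀ x, IsSol C x → BddAbove (x '' Ici (-2))) ↔ Cyc C) ∧
      (¬Cyc C → ∀ x, IsSol C x → ¬BddAbove (x '' Ici (-2))) ∧
      ((∀ j, 0 < C j) → ¬5 ∣ k → Cyc C) ∧
      ((∀ j, 0 < C j) → Cyc C → ∀ j, 1 < ∏ i ∈ Finset.range k,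
        (C (j + i * 5 + 3) + 1 / C (j + i * 5)))) ∧
    (5 ∣ k → ∃ C : ZMod k → ℝ, (∀ j, 0 < C j) ∧
      (∀ t, (∀ j, C (j + t) = C j) → t = 0) ∧ ¬Cyc C) := by
  refine ⟨fun C hC => ?_, fun h => ?_⟩
  · have e : ∀ x, IsSol C x ↔ Sol 1 2 C x := fun x => by
      simp only [Sol, IsSol, Nat.cast_one, Nat.cast_ofNat]
      exact ⟨fun h => ⟨fun i h1 h2 => by interval_cases i <;> simp [h.1, h.2.1, h.2.2.1], h.2.2.2⟩,
        fun h => ⟨h.1 _ le_rfl (by omega), h.1 _ (by omega) (by omega), h.1 _ (by omega) le_rfl,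
          h.2⟩⟩
    have := main (p := 1) (q := 2) (by omega : 0 < k) one_le_two hC
    rw [Nat.coprime_comm, show 1 + 2 + 2 = 5 from rfl, Nat.prime_five.coprime_iff_not_dvd] at this
    simpa only [e, Per, Cyc, Nat.cast_one, Nat.cast_ofNat,
      show (1 + 2 + 2 : ZMod k) = 5 by norm_num, show (2 + 1 : ZMod k) = 3 by norm_num] using this
  · simpa only [Per, Cyc, Nat.cast_one, Nat.cast_ofNat] using
      sharp (p := 1) (q := 2) (by omega : 0 < k) h dvd_rfl (by norm_num)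

end Pool.Agent.Results.MP_aa7c57_an.Periodic
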